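import Pool.Agent.HIP.Stmts

/-! Squad HIP, row EXP: the arithmetic of the exponents. -/

namespace Pool.Agent.HIP.H84

theorem exp : ExpStmt := by
  intro D κ hD
  obtain ⟨e, rfl⟩ : ∃ e, D = e + 2 := ⟨D - 2, by omega⟩
  have h1 : (∑ i ∈ Finset.range (2 * κ + 1), i) * 2 = (2 * κ + 1) * (2 * κ) := by
    rw [Finset.sum_range_id_mul_two, Nat.add_sub_cancel]
  have h2 : (∑ i ∈ Finset.range (e + 2), i) * 2 = (e + 2) * (e + 1) := by
    rw [Finset.sum_range_id_mul_two]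
    congr 1
  obtain ⟨n, hn⟩ : ∃ n, (e + 2) * (2 * κ + 1) = n + 1 :=
    ⟨(e + 2) * (2 * κ + 1) - 1, (Nat.sub_add_cancel (Nat.mul_pos (by omega) (by omega))).symm⟩
  have h3 : (∑ i ∈ Finset.range ((e + 2) * (2 * κ + 1)), i) * 2 = (n + 1) * n := by
    rw [hn, Finset.sum_range_id_mul_two, Nat.add_sub_cancel]
  generalize (∑ i ∈ Finset.range (2 * κ + 1), i) = a at h1 ⊢
  generalize (∑ i ∈ Finset.range (e + 2), i) = b at h2 ⊢
  generalize (∑ i ∈ Finset.range ((e + 2) * (2 * κ + 1)), i) = c at h3 ⊢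
  zify at h1 h2 h3 hn ⊢
  have h4 : (n : ℤ) = ((e : ℤ) + 2) * (2 * κ + 1) - 1 := by linarith
  have hκ : (0 : ℤ) ≤ κ := Int.natCast_nonneg κ
  have he : (0 : ℤ) ≤ e := Int.natCast_nonneg e
  have h5 : 2 * (3 * (c : ℤ)) - 2 * (4 * (((e : ℤ) + 2) * a) + 4 * κ * ((2 * κ + 1) * b) + 1)
      = ((e : ℤ) + 2) * (2 * κ + 1) * (2 * κ * e + 3 * e + 3) - 2 := by
    have h6 : 2 * (3 * (c : ℤ)) = 3 * ((n + 1) * n) := by linarith
    have h7 : 2 * (4 * (((e : ℤ) + 2) * a)) = 4 * (e + 2) * ((2 * κ + 1) * (2 * κ)) := by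
      rw [← h1]
      ring
    have h8 : 2 * (4 * κ * ((2 * κ + 1) * (b : ℤ))) = 4 * κ * (2 * κ + 1) * ((e + 2) * (e + 1)) := by
      rw [← h2]
      ring
    rw [mul_add, mul_add, h6, h7, h8, h4]
    ring
  have h6 : (2 : ℤ) ≤ ((e : ℤ) + 2) * (2 * κ + 1) * (2 * κ * e + 3 * e + 3) := by
    have h7 : (2 : ℤ) ≤ ((e : ℤ) + 2) * (2 * κ + 1) := by nlinarith
    have h8 : (1 : ℤ) ≤ 2 * κ * e + 3 * e + 3 := by nlinarith
    nlinarith
  linarith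

end Pool.Agent.HIP.H84
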